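import Mathlib

set_option autoImplicit false

open Filter Topology Finset
open scoped Real

namespace Pool.Agent.Results.MP_dace02_an.LargeBoxDimension

/-- The `k`-th Fourier coefficient of a 1-periodic function. -/
noncomputable def coef (g : ℝ → ℝ) (k : ℤ) : ℂ :=
  ∫ x in (0:ℝ)..1, (g x : ℂ) * Complex.exp (-(2 * π * Complex.I * k * x))

/-- Condition (H). -/
def CondH (δ : ℝ) (g : ℝ → ℝ) : Prop :=
  ∃ ε : ℝ, 0 < ε ∧ Summable fun k : ℕ => ‖coef g ((k : ℤ) + 1)‖ * ((k : ℝ) + 1) ^ ((ε + δ) / 2)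

/-- Condition (NV). -/
def CondNV (δ : ℝ) (g : ℝ → ℝ) : Prop :=
  ∃ d : ℕ, Squarefree d ∧
    ∑' m : ℕ, coef g (((m : ℤ) + 1) ^ 2 * d) * (((((m : ℝ) + 1) ^ 2 * d) ^ (δ / 2) : ℝ) : ℂ) ≠ 0

/-- The series `G_δ(x) = ∑_{n ≥ 1} g(n² x) / n^{1+δ}`. -/
noncomputable def G (δ : ℝ) (g : ℝ → ℝ) (x : ℝ) : ℝ :=
  ∑' n : ℕ, g (((n : ℝ) + 1) ^ 2 * x) / ((n : ℝ) + 1) ^ (1 + δ)

/-- The grid squares of side `1/N` meeting the graph of `f` over `[0,1]`. -/
def squares (f : ℝ → ℝ) (N : ℕ) : Set (ℤ × ℤ) :=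
  {p | ∃ x ∈ Set.Icc (0:ℝ) 1, x ∈ Set.Icc ((p.1 : ℝ) / N) (((p.1 : ℝ) + 1) / N) ∧
    f x ∈ Set.Icc ((p.2 : ℝ) / N) (((p.2 : ℝ) + 1) / N)}

/-- The number of grid squares of side `1/N` meeting the graph. -/
noncomputable def boxCount (f : ℝ → ℝ) (N : ℕ) : ℕ := (squares f N).ncard

/-- The upper box dimension of the graph. -/
noncomputable def upperBoxDim (f : ℝ → ℝ) : EReal :=
  limsup (fun N : ℕ => ((Real.log (boxCount f N) / Real.log N : ℝ) : EReal)) atTop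

/-- The lower box dimension of the graph. -/
noncomputable def lowerBoxDim (f : ℝ → ℝ) : EReal :=
  liminf (fun N : ℕ => ((Real.log (boxCount f N) / Real.log N : ℝ) : EReal)) atTop

/-! ### Counting squares -/

/-- total signed oscillation at scale `1/N` -/
noncomputable def E (N : ℕ) (f : ℝ → ℝ) : ℝ :=
  ∑ i ∈ range N, (f ((i : ℝ) / N) - f (((i : ℝ) + 1/2) / N))

lemma squares_finite (f : ℝ → ℝ) (hf : Continuous f) (N : ℕ) (hN : 0 < N) :
    (squares f N).Finite := by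
  obtain ⟨B, hB⟩ := (isCompact_Icc (a := (0:ℝ)) (b := 1)).exists_bound_of_continuousOn hf.continuousOn
  have hN' : (0:ℝ) < N := by exact_mod_cast hN
  apply Set.Finite.subset ((Set.finite_Icc (-1 : ℤ) N).prod
    (Set.finite_Icc (⌊-(N * B)⌋ - 1) (⌈(N:ℝ) * B⌉)))
  rintro ⟨a, b⟩ ⟨x, ⟨hx0, hx1⟩, ⟨h1, h2⟩, h3, h4⟩
  simp only at h1 h2 h3 h4
  rw [div_le_iff₀ hN'] at h1 h3
  rw [le_div_iff₀ hN'] at h2 h4
  have hfx := hB x ⟨hx0, hx1⟩
  rw [Real.norm_eq_abs, abs_le] at hfx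
  refine ⟨⟨?_, ?_⟩, ⟨?_, ?_⟩⟩
  · have : (-1 : ℝ) ≤ a := by nlinarith
    exact_mod_cast this
  · have : (a : ℝ) ≤ N := by nlinarith
    exact_mod_cast this
  · have h5 : -(N * B) ≤ (b:ℝ) + 1 := by nlinarith
    have h6 := Int.floor_le (-(N * B) : ℝ)
    have : ((⌊-(N * B)⌋ : ℤ) : ℝ) - 1 ≤ b := by linarith
    exact_mod_cast this
  · have h5 : (b:ℝ) ≤ N * B := by nlinarith
    have h6 := Int.le_ceil ((N:ℝ) * B)
    have : (b : ℝ) ≤ ⌈(N:ℝ) * B⌉ := by linarith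
    exact_mod_cast this

lemma mem_squares (f : ℝ → ℝ) (hf : Continuous f) (N : ℕ) (i : ℕ) (hi : i < N) (j : ℤ)
    (h1 : ⌊(N:ℝ) * f (((i : ℝ) + 1/2) / N)⌋ ≤ j) (h2 : j ≤ ⌊(N:ℝ) * f ((i : ℝ) / N)⌋) :
    ((i : ℤ), j) ∈ squares f N := by
  have hN : 0 < N := by omega
  have hN' : (0:ℝ) < N := by exact_mod_cast hN
  set X : ℝ := (i : ℝ) / N with hX
  set Y : ℝ := ((i : ℝ) + 1/2) / N with hY
  have hi1 : (i : ℝ) + 1 ≤ N := by exact_mod_cast hi
  have hi0 : (0:ℝ) ≤ i := by positivity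
  have hXY : X ≤ Y := by rw [hX, hY]; gcongr; linarith
  have hsub : Set.Icc X Y ⊆ Set.Icc ((i:ℝ) / N) (((i:ℝ) + 1) / N) := by
    apply Set.Icc_subset_Icc le_rfl
    rw [hY]; gcongr; norm_num
  have hsub2 : Set.Icc X Y ⊆ Set.Icc (0:ℝ) 1 := by
    apply Set.Icc_subset_Icc
    · rw [hX]; positivity
    · rw [hY, div_le_one hN']; linarith
  have hj1 : (N:ℝ) * f Y < j + 1 := by
    have := Int.lt_floor_add_one ((N:ℝ) * f Y)
    have h1' : ((⌊(N:ℝ) * f Y⌋ : ℤ) : ℝ) ≤ j := by exact_mod_cast h1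
    linarith
  have hj2 : (j:ℝ) ≤ N * f X := by
    have := Int.floor_le ((N:ℝ) * f X)
    have h2' : (j:ℝ) ≤ ((⌊(N:ℝ) * f X⌋ : ℤ) : ℝ) := by exact_mod_cast h2
    linarith
  have key : ∃ t ∈ Set.Icc X Y, (j:ℝ) / N ≤ f t ∧ f t ≤ ((j:ℝ) + 1) / N := by
    rcases le_or_gt (f Y) (f X) with hle | hlt
    · set v : ℝ := max (f Y) ((j:ℝ) / N) with hv
      have hv1 : f Y ≤ v := le_max_left _ _
      have hv2 : v ≤ f X := by
        apply max_le hle
        rw [div_le_iff₀ hN']; linarith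
      have hv3 : v ≤ ((j:ℝ) + 1) / N := by
        apply max_le
        · rw [le_div_iff₀ hN']; linarith
        · gcongr; linarith
      obtain ⟨t, ht, htv⟩ := intermediate_value_Icc' hXY hf.continuousOn ⟨hv1, hv2⟩
      exact ⟨t, ht, by rw [htv]; exact le_max_right _ _, by rw [htv]; exact hv3⟩
    · refine ⟨X, ⟨le_rfl, hXY⟩, ?_, ?_⟩
      · rw [div_le_iff₀ hN']; linarith
      · rw [le_div_iff₀ hN']; nlinarith
  obtain ⟨t, ht, ht1, ht2⟩ := key
  refine ⟨t, hsub2 ht, ?_, ⟨ht1, ht2⟩⟩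
  have := hsub ht
  simpa using this

lemma boxCount_ge (f : ℝ → ℝ) (hf : Continuous f) (N : ℕ) (hN : 0 < N) :
    (N : ℝ) * E N f ≤ boxCount f N := by
  classical
  set s : Finset (Σ _ : ℕ, ℤ) := (range N).sigma
    (fun i => Finset.Icc ⌊(N:ℝ) * f (((i : ℝ) + 1/2) / N)⌋ ⌊(N:ℝ) * f ((i : ℝ) / N)⌋) with hs
  set T : Finset (ℤ × ℤ) := s.image (fun p => ((p.1 : ℤ), p.2)) with hT
  have hsub : (T : Set (ℤ × ℤ)) ⊆ squares f N := by
    intro p hp
    rw [hT, Finset.mem_coe, mem_image] at hp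
    obtain ⟨⟨i, j⟩, hq, rfl⟩ := hp
    rw [hs, mem_sigma, mem_range, Finset.mem_Icc] at hq
    exact mem_squares f hf N i hq.1 j hq.2.1 hq.2.2
  have hcardT : T.card = s.card := by
    apply card_image_of_injective
    rintro ⟨i, j⟩ ⟨i', j'⟩ h
    simp only [Prod.mk.injEq, Nat.cast_inj] at h
    obtain ⟨rfl, rfl⟩ := h
    rfl
  have h1 : T.card ≤ boxCount f N := by
    unfold boxCount
    rw [← Set.ncard_coe_finset T]
    exact Set.ncard_le_ncard hsub (squares_finite f hf N hN)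
  have h2 : (N : ℝ) * E N f ≤ s.card := by
    rw [hs, card_sigma]
    unfold E
    push_cast
    rw [mul_sum]
    apply sum_le_sum
    intro i _
    rw [Int.card_Icc]
    have a1 := Int.floor_le ((N:ℝ) * f (((i : ℝ) + 1/2) / N))
    have a2 := Int.lt_floor_add_one ((N:ℝ) * f ((i : ℝ) / N))
    have a3 : ((⌊(N:ℝ) * f ((i : ℝ) / N)⌋ + 1 - ⌊(N:ℝ) * f (((i : ℝ) + 1/2) / N)⌋ : ℤ) : ℝ) ≤
        (((⌊(N:ℝ) * f ((i : ℝ) / N)⌋ + 1 - ⌊(N:ℝ) * f (((i : ℝ) + 1/2) / N)⌋).toNat : ℕ) : ℝ) := by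
      exact_mod_cast Int.self_le_toNat _
    push_cast at a3
    linarith
  calc (N : ℝ) * E N f ≤ s.card := h2
    _ = T.card := by rw [hcardT]
    _ ≤ boxCount f N := by exact_mod_cast h1

/-! ### Cosines -/

lemma sum_exp_zero (N m : ℕ) (hN : 0 < N) (h : ¬ N ∣ m) (s : ℝ) :
    ∑ i ∈ range N, Real.cos (2 * π * (m * (((i : ℝ) + s) / N))) = 0 := by
  have hN' : (N : ℂ) ≠ 0 := by exact_mod_cast hN.ne'
  set ζ : ℂ := Complex.exp (2 * π * Complex.I * (m / N)) with hζ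
  have hζN : ζ ^ N = 1 := by
    rw [hζ, ← Complex.exp_nat_mul]
    rw [Complex.exp_eq_one_iff]
    refine ⟨m, ?_⟩
    field_simp
    push_cast
    ring
  have hζ1 : ζ ≠ 1 := by
    intro h1
    rw [hζ, Complex.exp_eq_one_iff] at h1
    obtain ⟨k, hk⟩ := h1
    have h2 : (2 * π * Complex.I : ℂ) ≠ 0 := by simp [Real.pi_ne_zero]
    have h3 : (m : ℂ) / N = k := by
      have : (2 * π * Complex.I : ℂ) * (m / N) = (2 * π * Complex.I) * k := by rw [hk]; ring
      exact mul_left_cancel₀ h2 this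
    rw [div_eq_iff hN'] at h3
    have h4 : (m : ℤ) = k * N := by exact_mod_cast h3
    apply h
    have h5 : (N : ℤ) ∣ m := ⟨k, by rw [h4]; ring⟩
    exact_mod_cast h5
  have hgeom : ∑ i ∈ range N, ζ ^ i = 0 := by
    have := geom_sum_eq hζ1 N
    rw [this, hζN]; simp
  have h6 : ∀ i : ℕ, ((Real.cos (2 * π * (m * (((i : ℝ) + s) / N))) : ℝ)) =
      (ζ ^ i * Complex.exp (2 * π * Complex.I * (m * s / N))).re := by
    intro i
    rw [hζ, ← Complex.exp_nat_mul, ← Complex.exp_add]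
    have e : (i : ℂ) * (2 * π * Complex.I * (m / N)) + 2 * π * Complex.I * (m * s / N) =
        ((2 * π * (m * (((i : ℝ) + s) / N)) : ℝ) : ℂ) * Complex.I := by
      push_cast; field_simp
    rw [e, Complex.exp_ofReal_mul_I_re]
  simp_rw [h6]
  rw [← Complex.re_sum, ← sum_mul, hgeom, zero_mul]
  simp

lemma E_cos_nonneg (N m : ℕ) (hN : 0 < N) : 0 ≤ E N (fun x => Real.cos (2 * π * (m * x))) := by
  unfold E
  by_cases h : N ∣ m
  · apply sum_nonneg
    intro i _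
    obtain ⟨k, rfl⟩ := h
    have hN' : (N : ℝ) ≠ 0 := by exact_mod_cast hN.ne'
    have e : 2 * π * (((N * k : ℕ) : ℝ) * ((i : ℝ) / N)) = ((k * i : ℕ) : ℝ) * (2 * π) := by
      push_cast; field_simp
    beta_reduce
    rw [e, Real.cos_nat_mul_two_pi]
    have := Real.cos_le_one (2 * π * (((N * k : ℕ) : ℝ) * (((i : ℝ) + 1/2) / N)))
    linarith
  · rw [sum_sub_distrib]
    have h1 := sum_exp_zero N m hN h 0
    have h2 := sum_exp_zero N m hN h (1/2)
    simp only [add_zero] at h1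
    rw [h1, h2]; simp

lemma E_cos_self (N : ℕ) (hN : 0 < N) : E N (fun x => Real.cos (2 * π * (N * x))) = 2 * N := by
  unfold E
  have hN' : (N : ℝ) ≠ 0 := by exact_mod_cast hN.ne'
  have h : ∀ i ∈ range N, Real.cos (2 * π * (N * ((i : ℝ) / N))) -
      Real.cos (2 * π * (N * (((i : ℝ) + 1/2) / N))) = 2 := by
    intro i _
    have e1 : 2 * π * (N * ((i : ℝ) / N)) = (i : ℝ) * (2 * π) := by field_simp
    have e2 : 2 * π * (N * (((i : ℝ) + 1/2) / N)) = (i : ℝ) * (2 * π) + π := by field_simp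
    rw [e1, e2, Real.cos_nat_mul_two_pi, Real.cos_add_pi, Real.cos_nat_mul_two_pi]
    norm_num
  rw [sum_congr rfl h]
  simp; ring

lemma E_tsum {ι : Type*} (N : ℕ) (F : ι → ℝ → ℝ) (hF : ∀ x, Summable fun j => F j x) :
    HasSum (fun j => E N (F j)) (E N (fun x => ∑' j, F j x)) := by
  unfold E
  apply hasSum_sum
  intro i _
  exact (hF _).hasSum.sub (hF _).hasSum

/-! ### The function `g` -/

/-- coefficients -/
noncomputable def c (δ η : ℝ) (j : ℕ) : ℝ := ((4:ℝ) ^ j) ^ (-(δ / 2 + η))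

/-- A Weierstrass type function -/
noncomputable def g (δ η : ℝ) (x : ℝ) : ℝ := ∑' j : ℕ, c δ η j * Real.cos (2 * π * (4 ^ j * x))

lemma c_pos (δ η : ℝ) (j : ℕ) : 0 < c δ η j := by unfold c; positivity

lemma c_eq (δ η : ℝ) (j : ℕ) : c δ η j = ((4:ℝ) ^ (-(δ / 2 + η))) ^ j := by
  unfold c
  rw [← Real.rpow_natCast, ← Real.rpow_natCast, ← Real.rpow_mul (by norm_num),
    ← Real.rpow_mul (by norm_num)]
  ring_nf

lemma c_summable {δ η : ℝ} (hδ : 0 < δ) (hη : 0 < η) : Summable (c δ η) := by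
  have : c δ η = fun j => ((4:ℝ) ^ (-(δ / 2 + η))) ^ j := by ext j; exact c_eq δ η j
  rw [this]
  apply summable_geometric_of_lt_one (by positivity)
  apply Real.rpow_lt_one_of_one_lt_of_neg (by norm_num) (by linarith)

lemma g_summable {δ η : ℝ} (hδ : 0 < δ) (hη : 0 < η) (x : ℝ) :
    Summable fun j : ℕ => c δ η j * Real.cos (2 * π * (4 ^ j * x)) := by
  apply Summable.of_norm_bounded (c_summable hδ hη)
  intro j
  rw [norm_mul, Real.norm_of_nonneg (c_pos δ η j).le]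
  have := Real.abs_cos_le_one (2 * π * (4 ^ j * x))
  rw [Real.norm_eq_abs]
  nlinarith [c_pos δ η j]

lemma g_cont {δ η : ℝ} (hδ : 0 < δ) (hη : 0 < η) : Continuous (g δ η) := by
  unfold g
  apply continuous_tsum (u := c δ η)
  · intro j; fun_prop
  · exact c_summable hδ hη
  · intro j x
    rw [norm_mul, Real.norm_of_nonneg (c_pos δ η j).le]
    have := Real.abs_cos_le_one (2 * π * (4 ^ j * x))
    rw [Real.norm_eq_abs]
    nlinarith [c_pos δ η j]

lemma g_bound {δ η : ℝ} (hδ : 0 < δ) (hη : 0 < η) (x : ℝ) : |g δ η x| ≤ ∑' j, c δ η j := by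
  unfold g
  rw [← Real.norm_eq_abs]
  apply tsum_of_norm_bounded (c_summable hδ hη).hasSum
  intro j
  rw [norm_mul, Real.norm_of_nonneg (c_pos δ η j).le]
  have := Real.abs_cos_le_one (2 * π * (4 ^ j * x))
  rw [Real.norm_eq_abs]
  nlinarith [c_pos δ η j]

lemma g_periodic (δ η : ℝ) : Function.Periodic (g δ η) 1 := by
  intro x
  unfold g
  congr 1
  ext j
  congr 1
  have : 2 * π * (4 ^ j * (x + 1)) = 2 * π * (4 ^ j * x) + ((4 ^ j : ℕ) : ℝ) * (2 * π) := by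
    push_cast; ring
  rw [this, Real.cos_add_nat_mul_two_pi]

lemma n_summable {δ : ℝ} (hδ : 0 < δ) :
    Summable fun n : ℕ => 1 / ((n : ℝ) + 1) ^ (1 + δ) := by
  have h := (Real.summable_one_div_nat_rpow (p := 1 + δ)).mpr (by linarith)
  have h2 := (summable_nat_add_iff 1).mpr h
  refine h2.congr fun n => ?_
  push_cast; rfl

lemma G_term_bound {δ η : ℝ} (hδ : 0 < δ) (hη : 0 < η) (n : ℕ) (x : ℝ) :
    ‖g δ η (((n : ℝ) + 1) ^ 2 * x) / ((n : ℝ) + 1) ^ (1 + δ)‖ ≤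
      (∑' j, c δ η j) * (1 / ((n : ℝ) + 1) ^ (1 + δ)) := by
  rw [norm_div, Real.norm_eq_abs, Real.norm_of_nonneg (by positivity), div_eq_mul_one_div]
  exact mul_le_mul_of_nonneg_right (g_bound hδ hη _) (by positivity)

lemma G_cont {δ η : ℝ} (hδ : 0 < δ) (hη : 0 < η) : Continuous (G δ (g δ η)) := by
  unfold G
  apply continuous_tsum (u := fun n : ℕ => (∑' j, c δ η j) * (1 / ((n : ℝ) + 1) ^ (1 + δ)))
  · intro n
    have := g_cont hδ hη
    apply Continuous.div_const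
    exact this.comp (by fun_prop)
  · exact (n_summable hδ).mul_left _
  · exact fun n x => G_term_bound hδ hη n x

lemma E_g_scaled {δ η : ℝ} (hδ : 0 < δ) (hη : 0 < η) (N s : ℕ) :
    HasSum (fun j : ℕ => c δ η j * E N (fun x => Real.cos (2 * π * (((4 ^ j * s : ℕ) : ℝ) * x))))
      (E N (fun x => g δ η (s * x))) := by
  have h := E_tsum N (fun (j : ℕ) (x : ℝ) => c δ η j * Real.cos (2 * π * (4 ^ j * (s * x))))
    (fun x => g_summable hδ hη (s * x))
  have e1 : (fun x => g δ η (s * x)) =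
      fun x => ∑' j, c δ η j * Real.cos (2 * π * (4 ^ j * (s * x))) := rfl
  rw [e1]
  have e2 : (fun j : ℕ => c δ η j * E N (fun x => Real.cos (2 * π * (((4 ^ j * s : ℕ) : ℝ) * x)))) =
      fun j : ℕ => E N (fun x : ℝ => c δ η j * Real.cos (2 * π * (4 ^ j * (s * x)))) := by
    ext j
    unfold E
    rw [mul_sum]
    refine sum_congr rfl fun i _ => ?_
    push_cast
    rw [mul_sub, mul_assoc ((4:ℝ) ^ j), mul_assoc ((4:ℝ) ^ j)]
  rw [e2]
  exact h

lemma E_g_nonneg {δ η : ℝ} (hδ : 0 < δ) (hη : 0 < η) (N s : ℕ) (hN : 0 < N) :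
    0 ≤ E N (fun x => g δ η (s * x)) := by
  have h := E_g_scaled hδ hη N s
  exact h.nonneg fun j => mul_nonneg (c_pos δ η j).le (E_cos_nonneg N _ hN)

lemma E_g_self {δ η : ℝ} (hδ : 0 < δ) (hη : 0 < η) (J : ℕ) :
    c δ η J * (2 * (4:ℝ) ^ J) ≤ E (4 ^ J) (fun x => g δ η ((1 : ℕ) * x)) := by
  have h := E_g_scaled hδ hη (4 ^ J) 1
  have h2 := le_hasSum h J (fun j _ => mul_nonneg (c_pos δ η j).le (E_cos_nonneg _ _ (by positivity)))
  have h3 := E_cos_self (4 ^ J) (by positivity)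
  rw [mul_one, h3] at h2
  push_cast at h2 ⊢
  exact h2

lemma E_G_ge {δ η : ℝ} (hδ : 0 < δ) (hη : 0 < η) (J : ℕ) :
    c δ η J * (2 * (4:ℝ) ^ J) ≤ E (4 ^ J) (G δ (g δ η)) := by
  have h := E_tsum (4 ^ J) (fun (n : ℕ) (x : ℝ) => g δ η (((n : ℝ) + 1) ^ 2 * x) / ((n : ℝ) + 1) ^ (1 + δ))
    (fun x => Summable.of_norm_bounded ((n_summable hδ).mul_left _) (fun n => G_term_bound hδ hη n x))
  have e : ∀ n : ℕ, E (4 ^ J) (fun x : ℝ => g δ η (((n : ℝ) + 1) ^ 2 * x) / ((n : ℝ) + 1) ^ (1 + δ)) =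
      E (4 ^ J) (fun x : ℝ => g δ η ((((n + 1) ^ 2 : ℕ) : ℝ) * x)) / ((n : ℝ) + 1) ^ (1 + δ) := by
    intro n
    unfold E
    rw [sum_div]
    refine sum_congr rfl fun i _ => ?_
    push_cast
    rw [sub_div]
  have h2 := le_hasSum h 0 (fun n _ => by
    rw [e n]
    exact div_nonneg (E_g_nonneg hδ hη _ _ (by positivity)) (by positivity))
  beta_reduce at h2
  rw [e 0] at h2
  have h3 := E_g_self hδ hη J
  have e2 : (((0 : ℕ) : ℝ) + 1) ^ (1 + δ) = 1 := by simp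
  rw [e2, div_one] at h2
  have e3 : ((0 + 1) ^ 2 : ℕ) = 1 := rfl
  rw [e3] at h2
  exact h3.trans h2

/-! ### Fourier coefficients -/

lemma int_exp (l : ℤ) : ∫ x in (0:ℝ)..1, Complex.exp (2 * π * Complex.I * l * x) =
    if l = 0 then 1 else 0 := by
  split_ifs with h
  · subst h; simp
  · have hc : (2 * π * Complex.I * l : ℂ) ≠ 0 := by
      simp [Real.pi_ne_zero, h]
    rw [integral_exp_mul_complex hc]
    have h1 : Complex.exp (2 * π * Complex.I * l * (1:ℝ)) = 1 := by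
      rw [Complex.exp_eq_one_iff]
      exact ⟨l, by push_cast; ring⟩
    rw [h1]; simp

lemma int_cos (m : ℕ) (k : ℤ) :
    ∫ x in (0:ℝ)..1, ((Real.cos (2 * π * (m * x)) : ℝ) : ℂ) *
      Complex.exp (-(2 * π * Complex.I * k * x)) =
    (if (m : ℤ) = k then 1/2 else 0) + (if (m : ℤ) = -k then 1/2 else 0) := by
  have h : ∀ x : ℝ, ((Real.cos (2 * π * (m * x)) : ℝ) : ℂ) *
      Complex.exp (-(2 * π * Complex.I * k * x)) =
      (1/2) * Complex.exp (2 * π * Complex.I * ((m - k : ℤ) : ℂ) * x) +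
      (1/2) * Complex.exp (2 * π * Complex.I * ((-m - k : ℤ) : ℂ) * x) := by
    intro x
    rw [Complex.ofReal_cos, Complex.cos]
    push_cast
    rw [div_mul_eq_mul_div, add_mul, ← Complex.exp_add, ← Complex.exp_add]
    rw [add_div, div_eq_mul_one_div, div_eq_mul_one_div (Complex.exp _), mul_comm _ (1/2 : ℂ),
      mul_comm _ (1/2 : ℂ)]
    congr 3 <;> ring_nf
  simp_rw [h]
  rw [intervalIntegral.integral_add (Continuous.intervalIntegrable (by fun_prop) _ _)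
    (Continuous.intervalIntegrable (by fun_prop) _ _), intervalIntegral.integral_const_mul,
    intervalIntegral.integral_const_mul, int_exp, int_exp]
  have e1 : ((m : ℤ) - k = 0) ↔ ((m : ℤ) = k) := sub_eq_zero
  have e2 : (-(m : ℤ) - k = 0) ↔ ((m : ℤ) = -k) := by constructor <;> intro h <;> omega
  simp only [e1, e2, mul_ite, mul_one, mul_zero]

lemma coef_g {δ η : ℝ} (hδ : 0 < δ) (hη : 0 < η) (k : ℤ) (hk : 0 < k) :
    HasSum (fun j : ℕ => (c δ η j : ℂ) * (if ((4 : ℤ) ^ j) = k then 1/2 else 0))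
      (coef (g δ η) k) := by
  have h := intervalIntegral.hasSum_integral_of_dominated_convergence (a := 0) (b := 1)
    (μ := MeasureTheory.volume)
    (F := fun (j : ℕ) (x : ℝ) => ((c δ η j * Real.cos (2 * π * (4 ^ j * x)) : ℝ) : ℂ) *
      Complex.exp (-(2 * π * Complex.I * k * x)))
    (f := fun x : ℝ => (g δ η x : ℂ) * Complex.exp (-(2 * π * Complex.I * k * x)))
    (fun j _ => c δ η j) ?_ ?_ ?_ ?_ ?_
  · have e : (fun j : ℕ => ∫ x in (0:ℝ)..1, ((c δ η j * Real.cos (2 * π * (4 ^ j * x)) : ℝ) : ℂ) *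
        Complex.exp (-(2 * π * Complex.I * k * x))) =
        fun j : ℕ => (c δ η j : ℂ) * (if ((4 : ℤ) ^ j) = k then 1/2 else 0) := by
      ext j
      have h1 := int_cos (4 ^ j) k
      have e2 : ∀ x : ℝ, ((c δ η j * Real.cos (2 * π * (4 ^ j * x)) : ℝ) : ℂ) *
        Complex.exp (-(2 * π * Complex.I * k * x)) = (c δ η j : ℂ) *
        (((Real.cos (2 * π * (((4 ^ j : ℕ) : ℝ) * x)) : ℝ) : ℂ) *
        Complex.exp (-(2 * π * Complex.I * k * x))) := by
        intro x; push_cast; ring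
      simp_rw [e2]
      rw [intervalIntegral.integral_const_mul, h1]
      have e3 : ¬ (((4 ^ j : ℕ) : ℤ) = -k) := by
        have : (0 : ℤ) < ((4 ^ j : ℕ) : ℤ) := by positivity
        omega
      rw [if_neg e3, add_zero]
      push_cast
      rfl
    rw [e] at h
    exact h
  · intro j
    apply Continuous.aestronglyMeasurable
    fun_prop
  · intro j
    refine Eventually.of_forall fun x _ => ?_
    rw [norm_mul]
    have e1 : ‖Complex.exp (-(2 * π * Complex.I * k * x))‖ = 1 := by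
      rw [show (-(2 * π * Complex.I * k * x) : ℂ) = ((-(2 * π * k * x) : ℝ) : ℂ) * Complex.I by
        push_cast; ring]
      exact Complex.norm_exp_ofReal_mul_I _
    rw [e1, mul_one, Complex.norm_real, norm_mul, Real.norm_of_nonneg (c_pos δ η j).le,
      Real.norm_eq_abs]
    have := Real.abs_cos_le_one (2 * π * (4 ^ j * x))
    nlinarith [c_pos δ η j]
  · exact Eventually.of_forall fun x _ => c_summable hδ hη
  · exact intervalIntegrable_const
  · refine Eventually.of_forall fun x _ => ?_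
    apply HasSum.mul_right
    have h0 : HasSum (fun j : ℕ => c δ η j * Real.cos (2 * π * (4 ^ j * x))) (g δ η x) :=
      (g_summable hδ hη x).hasSum
    exact Complex.hasSum_ofReal.mpr h0

lemma coef_pow {δ η : ℝ} (hδ : 0 < δ) (hη : 0 < η) (J : ℕ) :
    coef (g δ η) (4 ^ J) = (c δ η J : ℂ) / 2 := by
  have h := coef_g hδ hη (4 ^ J) (by positivity)
  have h2 := hasSum_single (f := fun j : ℕ => (c δ η j : ℂ) * (if ((4 : ℤ) ^ j) = 4 ^ J then 1/2 else 0))
    J (fun j hj => by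
      have : ¬ ((4 : ℤ) ^ j = 4 ^ J) := by
        intro h'
        exact hj (Int.pow_right_injective (by norm_num) h')
      rw [if_neg this, mul_zero])
  have h3 := h.unique h2
  rw [h3, if_pos rfl]; ring

lemma coef_other {δ η : ℝ} (hδ : 0 < δ) (hη : 0 < η) (k : ℤ) (hk : 0 < k)
    (h4 : ∀ J : ℕ, (4 : ℤ) ^ J ≠ k) : coef (g δ η) k = 0 := by
  have h := coef_g hδ hη k hk
  have e : (fun j : ℕ => (c δ η j : ℂ) * (if ((4 : ℤ) ^ j) = k then 1/2 else 0)) = fun _ => 0 := by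
    ext j
    rw [if_neg (h4 j), mul_zero]
  rw [e] at h
  exact h.unique hasSum_zero

lemma coef_nonneg {δ η : ℝ} (hδ : 0 < δ) (hη : 0 < η) (k : ℤ) (hk : 0 < k) :
    ∃ r : ℝ, 0 ≤ r ∧ coef (g δ η) k = (r : ℂ) := by
  by_cases h : ∃ J : ℕ, (4 : ℤ) ^ J = k
  · obtain ⟨J, rfl⟩ := h
    refine ⟨c δ η J / 2, div_nonneg (c_pos δ η J).le (by norm_num), ?_⟩
    rw [coef_pow hδ hη]; push_cast; rfl
  · push Not at h
    exact ⟨0, le_rfl, by rw [coef_other hδ hη k hk h]; simp⟩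

lemma summable_H {δ η : ℝ} (hδ : 0 < δ) (hη : 0 < η) :
    Summable fun k : ℕ => ‖coef (g δ η) (k : ℤ)‖ * (k : ℝ) ^ ((η + δ) / 2) := by
  have hinj : Function.Injective (fun j : ℕ => 4 ^ j) := Nat.pow_right_injective (by norm_num)
  rw [← hinj.summable_iff]
  · have e : ((fun k : ℕ => ‖coef (g δ η) (k : ℤ)‖ * (k : ℝ) ^ ((η + δ) / 2)) ∘ fun j : ℕ => 4 ^ j) =
        fun j : ℕ => (1/2) * ((4:ℝ) ^ (-(η / 2))) ^ j := by
      ext j
      simp only [Function.comp]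
      have e1 : (((4 ^ j : ℕ) : ℤ)) = (4:ℤ) ^ j := by push_cast; rfl
      rw [e1, coef_pow hδ hη, norm_div, Complex.norm_real, Real.norm_of_nonneg (c_pos δ η j).le]
      have e2 : ((4 ^ j : ℕ) : ℝ) = (4:ℝ) ^ j := by push_cast; rfl
      rw [e2]
      unfold c
      have h4 : (0:ℝ) < 4 ^ j := by positivity
      rw [div_mul_eq_mul_div, ← Real.rpow_add h4]
      have e3 : -(δ / 2 + η) + (η + δ) / 2 = -(η / 2) := by ring
      rw [e3, ← Real.rpow_natCast, ← Real.rpow_natCast, ← Real.rpow_mul (by norm_num),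
        ← Real.rpow_mul (by norm_num)]
      have : ‖(2:ℂ)‖ = 2 := by simp
      rw [this]
      ring_nf
    rw [e]
    apply Summable.mul_left
    apply summable_geometric_of_lt_one (by positivity)
    apply Real.rpow_lt_one_of_one_lt_of_neg (by norm_num) (by linarith)
  · intro k hk
    rcases Nat.eq_zero_or_pos k with rfl | hk0
    · have : ((0:ℕ):ℝ) ^ ((η + δ) / 2) = 0 := by
        rw [Nat.cast_zero, Real.zero_rpow (by positivity)]
      rw [this, mul_zero]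
    · rw [coef_other hδ hη k (by exact_mod_cast hk0)]
      · simp
      · intro J hJ
        apply hk
        exact ⟨J, by exact_mod_cast hJ⟩

lemma condH {δ η : ℝ} (hδ : 0 < δ) (hη : 0 < η) : CondH δ (g δ η) := by
  refine ⟨η, hη, ?_⟩
  have h := (summable_nat_add_iff 1).mpr (summable_H hδ hη)
  refine h.congr fun k => ?_
  push_cast
  rfl

lemma condNV {δ η : ℝ} (hδ : 0 < δ) (hη : 0 < η) : CondNV δ (g δ η) := by
  refine ⟨1, squarefree_one, ?_⟩
  set F : ℕ → ℂ := fun m => coef (g δ η) (((m : ℤ) + 1) ^ 2 * (1 : ℕ)) *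
    (((((m : ℝ) + 1) ^ 2 * (1 : ℕ)) ^ (δ / 2) : ℝ) : ℂ) with hF
  have hinj : Function.Injective (fun m : ℕ => (m + 1) ^ 2) := by
    intro a b hab
    have := Nat.pow_left_injective (n := 2) (by norm_num) hab
    omega
  have hs1 := (summable_H hδ hη).comp_injective hinj
  have hs : Summable F := by
    apply Summable.of_norm_bounded hs1
    intro m
    simp only [hF, Function.comp]
    rw [norm_mul, Complex.norm_real, Real.norm_of_nonneg (by positivity)]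
    have e1 : (((m : ℤ) + 1) ^ 2 * ((1 : ℕ) : ℤ)) = (((m + 1) ^ 2 : ℕ) : ℤ) := by push_cast; ring
    have e2 : (((m : ℝ) + 1) ^ 2 * ((1 : ℕ) : ℝ)) = (((m + 1) ^ 2 : ℕ) : ℝ) := by push_cast; ring
    rw [e1, e2]
    apply mul_le_mul_of_nonneg_left _ (norm_nonneg _)
    apply Real.rpow_le_rpow_of_exponent_le
    · have : 1 ≤ (m + 1) ^ 2 := Nat.one_le_pow _ _ (by omega)
      exact_mod_cast this
    · linarith
  have hnn : ∀ m, 0 ≤ (F m).re := by
    intro m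
    obtain ⟨r, hr, hr2⟩ := coef_nonneg hδ hη (((m : ℤ) + 1) ^ 2 * (1 : ℕ)) (by positivity)
    simp only [hF]
    rw [hr2, ← Complex.ofReal_mul, Complex.ofReal_re]
    positivity
  have h0 : (F 0).re = 1 / 2 := by
    have e : (((0 : ℕ) : ℤ) + 1) ^ 2 * ((1 : ℕ) : ℤ) = 4 ^ 0 := by norm_num
    simp only [hF]
    rw [e, coef_pow hδ hη]
    simp [c]
  intro hzero
  have h1 : HasSum (fun m => (F m).re) 0 := by
    have := hs.hasSum
    rw [hzero] at this
    simpa using Complex.hasSum_re this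
  have h2 := le_hasSum h1 0 (fun m _ => hnn m)
  rw [h0] at h2
  norm_num at h2

/-! ### Conclusion -/

lemma boxDim_ge {δ η : ℝ} (hδ : 0 < δ) (hη : 0 < η) :
    ((2 - δ / 2 - η : ℝ) : EReal) ≤ upperBoxDim (G δ (g δ η)) := by
  unfold upperBoxDim
  apply le_limsup_of_frequently_le'
  rw [frequently_atTop]
  intro N0
  refine ⟨4 ^ (N0 + 1), ?_, ?_⟩
  · have : N0 + 1 < 4 ^ (N0 + 1) := Nat.lt_pow_self (by norm_num)
    omega
  · set J := N0 + 1 with hJ
    have h1 := boxCount_ge (G δ (g δ η)) (G_cont hδ hη) (4 ^ J) (by positivity)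
    have h2 := E_G_ge hδ hη J
    have hN : (1:ℝ) < ((4 ^ J : ℕ) : ℝ) := by
      have : 1 < 4 ^ J := Nat.one_lt_pow (by omega) (by norm_num)
      exact_mod_cast this
    have hN0 : (0:ℝ) < ((4 ^ J : ℕ) : ℝ) := by linarith
    have e1 : ((4 ^ J : ℕ) : ℝ) = (4:ℝ) ^ J := by push_cast; rfl
    have h3 : ((4 ^ J : ℕ) : ℝ) ^ (2 - δ / 2 - η) ≤ boxCount (G δ (g δ η)) (4 ^ J) := by
      have h4 : ((4 ^ J : ℕ) : ℝ) * (c δ η J * (2 * (4:ℝ) ^ J)) ≤
          boxCount (G δ (g δ η)) (4 ^ J) :=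
        (mul_le_mul_of_nonneg_left h2 hN0.le).trans h1
      refine le_trans ?_ h4
      have e2 : ((4 ^ J : ℕ) : ℝ) ^ (2 - δ / 2 - η) =
          ((4 ^ J : ℕ) : ℝ) * ((4 ^ J : ℕ) : ℝ) * c δ η J := by
        unfold c
        rw [← e1]
        have : (2 - δ / 2 - η) = 1 + 1 + (-(δ / 2 + η)) := by ring
        rw [this, Real.rpow_add hN0, Real.rpow_add hN0, Real.rpow_one]
      rw [e2, ← e1]
      have := c_pos δ η J
      nlinarith [mul_pos (mul_pos hN0 hN0) this]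
    have hlog : 0 < Real.log ((4 ^ J : ℕ) : ℝ) := Real.log_pos hN
    have h5 : 2 - δ / 2 - η ≤ Real.log (boxCount (G δ (g δ η)) (4 ^ J)) /
        Real.log ((4 ^ J : ℕ) : ℝ) := by
      rw [le_div_iff₀ hlog, ← Real.log_rpow hN0]
      exact Real.log_le_log (by positivity) h3
    exact_mod_cast h5

/-- For every `δ ∈ (0,1]` and every `η > 0` there is an admissible `g` for which the graph of
`G_δ` has upper box dimension at least `2 - δ/2 - η`; in particular the assertion of Q1 fails for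
every `δ`. -/
theorem result :
    (∀ δ η : ℝ, 0 < δ → δ ≤ 1 → 0 < η → ∃ g : ℝ → ℝ, Continuous g ∧ Function.Periodic g 1 ∧
      CondH δ g ∧ CondNV δ g ∧ ((2 - δ / 2 - η : ℝ) : EReal) ≤ upperBoxDim (G δ g)) ∧
    (∀ δ : ℝ, 0 < δ → δ ≤ 1 → ∃ g : ℝ → ℝ, Continuous g ∧ Function.Periodic g 1 ∧
      CondH δ g ∧ CondNV δ g ∧ ((7 / 4 - δ / 2 : ℝ) : EReal) < upperBoxDim (G δ g)) := by
  refine ⟨fun δ η hδ _ hη => ⟨g δ η, g_cont hδ hη, g_periodic δ η, condH hδ hη, condNV hδ hη,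
    boxDim_ge hδ hη⟩, fun δ hδ _ => ⟨g δ (1/8), g_cont hδ (by norm_num), g_periodic δ _,
    condH hδ (by norm_num), condNV hδ (by norm_num), ?_⟩⟩
  refine lt_of_lt_of_le ?_ (boxDim_ge hδ (by norm_num : (0:ℝ) < 1/8))
  rw [EReal.coe_lt_coe_iff]
  linarith

end Pool.Agent.Results.MP_dace02_an.LargeBoxDimension
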